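import Pool.Agent.X272.WC.Exact

/-!
# Weak convexity of the top syzygy degree fails

The counterexample lives in six variables `x₁, …, x₄, y₁, y₂` over the field with two elements.
Let `S = K[x₁, …, x₄]` and let `E` be the graded dual of `S`. The ideal is the kernel of the map to
the idealization of `S` with `E` which sends `y₁, y₂` to two functionals of degree `14` whose
contractions by the forms of degree `6` are all the functionals of degree `8`.
-/

set_option autoImplicit false

namespace Pool.Agent.Results.MP_78a38c_al.Disproof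

open MvPolynomial Finset

section Definitions

variable {K : Type*} [Field K] {n : ℕ}

/-- The ideal `I` of `S = K[x_1, …, x_n]` is homogeneous: it contains the homogeneous components of
its elements. -/
def HomogIdeal (I : Ideal (MvPolynomial (Fin n) K)) : Prop :=
  ∀ p ∈ I, ∀ d, homogeneousComponent d p ∈ I

/-- `p` is a form of the integer degree `j`: it is zero, or `j` is a natural number and `p` is
homogeneous of degree `j`. -/
def IsForm (j : ℤ) (p : MvPolynomial (Fin n) K) : Prop :=
  p = 0 ∨ ∃ d : ℕ, (d : ℤ) = j ∧ p.IsHomogeneous d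

/-- `c` is an element of homological degree `i` and internal degree `j` of the Koszul complex
`K(x_1, …, x_n; S/I)`: the coefficient of `e_σ` is `c σ`, it is zero unless `σ` has `i` elements,
and it is the class of a form of degree `j - i`. -/
def IsChain (I : Ideal (MvPolynomial (Fin n) K)) (i j : ℕ)
    (c : Finset (Fin n) → MvPolynomial (Fin n) K ⧸ I) : Prop :=
  (∀ σ, σ.card ≠ i → c σ = 0) ∧
    ∀ σ, ∃ p, IsForm ((j : ℤ) - i) p ∧ Ideal.Quotient.mk I p = c σ

/-- The differential of the Koszul complex `K(x_1, …, x_n; S/I)`. It sends `e_σ` to the sum over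
`k ∈ σ` of `(-1) ^ #{l ∈ σ | l < k} x_k e_(σ \ {k})`. -/
noncomputable def koszulD (I : Ideal (MvPolynomial (Fin n) K))
    (c : Finset (Fin n) → MvPolynomial (Fin n) K ⧸ I) (τ : Finset (Fin n)) :
    MvPolynomial (Fin n) K ⧸ I :=
  ∑ k ∈ τᶜ, (-1) ^ (τ.filter (fun l => l < k)).card * (Ideal.Quotient.mk I (X k) * c (insert k τ))

/-- `Tor_i(S/I, K)_j`, the homology of the Koszul complex `K(x_1, …, x_n; S/I)` in homological
degree `i` and internal degree `j`, is not zero. -/
def TorNonzero (I : Ideal (MvPolynomial (Fin n) K)) (i j : ℕ) : Prop :=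
  ∃ c, IsChain I i j c ∧ koszulD I c = 0 ∧ ¬ ∃ b, IsChain I (i + 1) j b ∧ koszulD I b = c

/-- `t_i(S/I)`, the largest `j` such that `Tor_i(S/I, K)_j` is not zero; it is `⊥ = -∞` if there is
none. -/
noncomputable def topDegree (I : Ideal (MvPolynomial (Fin n) K)) (i : ℕ) : WithBot ℕ∞ :=
  ⨆ (j : ℕ) (_ : TorNonzero I i j), ((j : ℕ∞) : WithBot ℕ∞)

end Definitions

section Proof

open Pool.Agent.X272.WC

/-- the ideal of the counterexample -/
noncomputable def J : Ideal T := RingHom.ker Psi

/-- the injection of the quotient -/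
noncomputable def lift : T ⧸ J →+* R := RingHom.kerLift Psi

theorem lift_mk (p : T) : lift (Ideal.Quotient.mk J p) = Psi p := RingHom.kerLift_mk Psi p

theorem lift_inj : Function.Injective lift := RingHom.kerLift_injective Psi

theorem homogeneous_J : HomogIdeal J := by
  intro p hp d
  rw [J, RingHom.mem_ker] at hp ⊢
  have hG : ∀ i, G i (Psi (homogeneousComponent i p)) := fun i =>
    G_Psi (homogeneousComponent_isHomogeneous i p)
  have hsum : ∑ i ∈ range (p.totalDegree + 1), Psi (homogeneousComponent i p) = 0 := by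
    rw [← map_sum, sum_homogeneousComponent, hp]
  by_cases hd : d ∈ range (p.totalDegree + 1)
  · apply TrivSqZeroExt.ext
    · ext m
      rw [TrivSqZeroExt.fst_zero, coeff_zero]
      by_contra h
      have hm := ((hG d).1 m h).1
      have h1 : coeff m (∑ i ∈ range (p.totalDegree + 1), Psi (homogeneousComponent i p)).fst =
          0 := by rw [hsum, TrivSqZeroExt.fst_zero, coeff_zero]
      rw [TrivSqZeroExt.fst_sum, coeff_sum, Finset.sum_eq_single d] at h1
      · exact h h1
      · intro i _ hi
        by_contra h3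
        exact hi (((hG i).1 m h3).1.symm.trans hm)
      · intro h3
        exact absurd hd h3
    · apply E_ext
      intro v
      rw [TrivSqZeroExt.snd_zero, ev_zero]
      by_contra h
      have hm := ((hG d).2 v h).1
      have h1 : ev (∑ i ∈ range (p.totalDegree + 1), Psi (homogeneousComponent i p)).snd
          (monomial v 1) = 0 := by rw [hsum, TrivSqZeroExt.snd_zero, ev_zero]
      rw [TrivSqZeroExt.snd_sum, ev_sum, Finset.sum_eq_single d] at h1
      · exact h h1
      · intro i _ hi
        by_contra h3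
        have := ((hG i).2 v h3).1
        omega
      · intro h3
        exact absurd hd h3
  · rw [mem_range] at hd
    rw [homogeneousComponent_eq_zero _ _ (by omega), map_zero]

theorem neg_one_R : (-1 : R) = 1 := by
  rw [neg_eq_iff_add_eq_zero]
  exact h2R 1

theorem lift_koszulD (c : Finset (Fin 6) → T ⧸ J) (τ : Finset (Fin 6)) :
    lift (koszulD J c τ) = dif (fun σ => lift (c σ)) τ := by
  unfold koszulD dif
  rw [map_sum]
  refine Finset.sum_congr rfl fun k _ => ?_
  rw [map_mul, map_mul, map_pow, map_neg, map_one, neg_one_R, one_pow, one_mul, lift_mk, Psi_X]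

theorem G_lift {i j : ℕ} {c : Finset (Fin 6) → T ⧸ J} (hc : IsChain J i j c) (d : ℕ)
    (hd : i + d = j) (σ : Finset (Fin 6)) : G d (lift (c σ)) := by
  obtain ⟨p, hp, hp'⟩ := hc.2 σ
  rw [← hp', lift_mk]
  rcases hp with rfl | ⟨d', hd', hp⟩
  · rw [map_zero]
    exact G_zero d
  · have : d' = d := by omega
    subst this
    exact G_Psi hp

theorem exact_three {j : ℕ} (hj : 11 ≤ j) : ¬ TorNonzero J 3 j := by
  rintro ⟨c, hc, hcyc, hno⟩
  apply hno
  obtain ⟨d, rfl⟩ : ∃ d, j = 4 + d := ⟨j - 4, by omega⟩
  have hcyc' : ∀ τ, dif (fun σ => lift (c σ)) τ = 0 := by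
    intro τ
    rw [← lift_koszulD, hcyc, Pi.zero_apply, map_zero]
  obtain ⟨η, hη4, hηG, hηd⟩ := exact3 (fun σ => lift (c σ)) d
    (fun σ hσ => by rw [hc.1 σ hσ, map_zero]) (fun σ => G_lift hc (d + 1) (by omega) σ) hcyc'
  have hch : ∀ σ, ∃ p : T, p.IsHomogeneous d ∧ Psi p = η σ := fun σ =>
    surj (η σ) d (by omega) (hηG σ)
  choose q hq hq' using hch
  refine ⟨fun σ => Ideal.Quotient.mk J (q σ), ⟨?_, ?_⟩, ?_⟩
  · intro σ hσ
    apply lift_inj
    rw [lift_mk, hq', hη4 σ hσ, map_zero]
  · intro σ
    refine ⟨q σ, Or.inr ⟨d, ?_, hq σ⟩, rfl⟩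
    push_cast
    ring
  · funext τ
    apply lift_inj
    rw [lift_koszulD, ← hηd τ]
    congr 1
    funext σ
    rw [lift_mk, hq']

theorem gen_mul_inr (k : Fin 6) (φ : E) :
    gen k * TrivSqZeroExt.inr φ =
      if k.val < 4 then TrivSqZeroExt.inr ((X k : T) • φ) else 0 := by
  unfold gen
  split_ifs with h1 h3
  · exact inl_mul_inr' _ _
  · exact TrivSqZeroExt.inr_mul_inr _ _ _
  · exact TrivSqZeroExt.inr_mul_inr _ _ _

theorem socle : TorNonzero J 6 21 := by
  have hx : xonly (0 : U) := ⟨rfl, rfl⟩
  obtain ⟨p, hp, hp'⟩ := surj_del 0 15 (by norm_num) (by rw [map_zero]) hx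
  refine ⟨fun σ => if σ = univ then Ideal.Quotient.mk J p else 0, ⟨?_, ?_⟩, ?_, ?_⟩
  · intro σ hσ
    apply if_neg
    rintro rfl
    exact hσ (by decide)
  · intro σ
    by_cases h : σ = univ
    · exact ⟨p, Or.inr ⟨15, by norm_num, hp⟩, (if_pos h).symm⟩
    · exact ⟨0, Or.inl rfl, (map_zero _).trans (if_neg h).symm⟩
  · funext τ
    apply lift_inj
    rw [lift_koszulD, Pi.zero_apply, map_zero]
    refine Finset.sum_eq_zero fun k _ => ?_
    by_cases h : insert k τ = univ
    · simp only [if_pos h]
      rw [lift_mk, hp', gen_mul_inr]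
      split_ifs with h4
      · have : (X k : T) • del 0 = 0 := by
          apply E_ext
          intro v
          rw [ev_X_smul, ev_del, ev_zero, if_neg]
          intro h5
          have := DFunLike.congr_fun h5 k
          rw [Finsupp.add_apply, e_self] at this
          simp at this
        rw [this, TrivSqZeroExt.inr_zero]
      · rfl
    · simp only [if_neg h]
      rw [map_zero, mul_zero]
  · rintro ⟨b, hb, hb'⟩
    have hb0 : ∀ σ, b σ = 0 := by
      intro σ
      apply hb.1 σ
      have := Finset.card_le_univ σ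
      rw [Fintype.card_fin] at this
      omega
    have h1 := congrFun hb' univ
    rw [if_pos rfl] at h1
    have h3 : koszulD J b univ = 0 := by
      unfold koszulD
      refine Finset.sum_eq_zero fun k _ => ?_
      rw [hb0, mul_zero, mul_zero]
    rw [h3] at h1
    have h5 := congrArg lift h1
    rw [map_zero, lift_mk, hp'] at h5
    have h6 : ev (del 0) (monomial 0 1) = 0 := by
      have h7 := congrArg TrivSqZeroExt.snd h5
      rw [TrivSqZeroExt.snd_zero, TrivSqZeroExt.snd_inr] at h7
      rw [← h7, ev_zero]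
    rw [ev_del, if_pos rfl] at h6
    exact one_ne_zero h6

theorem socle_le {j : ℕ} (h : TorNonzero J 6 j) : j ≤ 21 := by
  by_contra hj
  push Not at hj
  obtain ⟨c, hc, hcyc, hno⟩ := h
  apply hno
  obtain ⟨d, rfl⟩ : ∃ d, j = 6 + d := ⟨j - 6, by omega⟩
  have hc0 : lift (c univ) = 0 := by
    have hG := G_lift hc d rfl univ
    have h1 : gen 0 * lift (c univ) = 0 := by
      have h3 : lift (koszulD J c (univ.erase 0)) = 0 := by
        rw [hcyc, Pi.zero_apply, map_zero]
      rw [lift_koszulD] at h3
      unfold dif at h3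
      have h5 : ((univ : Finset (Fin 6)).erase 0)ᶜ = {0} := by decide
      rw [h5, Finset.sum_singleton, Finset.insert_erase (mem_univ _)] at h3
      exact h3
    have hf : (lift (c univ)).fst = 0 := by
      have h3 := congrArg TrivSqZeroExt.fst h1
      rw [TrivSqZeroExt.fst_mul, TrivSqZeroExt.fst_zero] at h3
      have h5 : (gen 0).fst = (X 0 : T) := rfl
      rw [h5] at h3
      rcases mul_eq_zero.1 h3 with h6 | h6
      · exact absurd h6 (X_ne_zero 0)
      · exact h6
    apply TrivSqZeroExt.ext
    · rw [hf, TrivSqZeroExt.fst_zero]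
    · apply E_ext
      intro v
      rw [TrivSqZeroExt.snd_zero, ev_zero]
      by_contra h
      have := (hG.2 v h).1
      omega
  refine ⟨fun _ => 0, ⟨fun _ _ => rfl, fun _ => ⟨0, Or.inl rfl, map_zero _⟩⟩, ?_⟩
  funext τ
  have h1 : koszulD J (fun _ => 0) τ = 0 := by
    unfold koszulD
    refine Finset.sum_eq_zero fun k _ => ?_
    rw [mul_zero, mul_zero]
  rw [h1]
  by_cases hτ : τ = univ
  · subst hτ
    apply lift_inj
    rw [map_zero, hc0]
  · rw [hc.1 τ]
    intro h
    apply hτ
    apply Finset.eq_univ_of_card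
    rw [h, Fintype.card_fin]

theorem top_three : topDegree J 3 ≤ 10 := by
  refine iSup_le fun j => iSup_le fun hj => ?_
  have h : j ≤ 10 := by
    by_contra h
    exact exact_three (by omega) hj
  have h1 : ((j : ℕ∞) : WithBot ℕ∞) ≤ ((10 : ℕ∞) : WithBot ℕ∞) :=
    WithBot.coe_le_coe.2 (by exact_mod_cast h)
  exact h1

theorem top_six : topDegree J 6 = 21 := by
  apply le_antisymm
  · refine iSup_le fun j => iSup_le fun hj => ?_
    have h := socle_le hj
    have h1 : ((j : ℕ∞) : WithBot ℕ∞) ≤ ((21 : ℕ∞) : WithBot ℕ∞) :=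
      WithBot.coe_le_coe.2 (by exact_mod_cast h)
    exact h1
  · exact le_iSup_of_le 21 (le_iSup_of_le socle le_rfl)

end Proof

/-- Weak convexity of the top syzygy degree fails: there is a homogeneous ideal `I` of the
polynomial ring in six variables over the field with two elements with `t_3(S/I) ≤ 10` and
`t_6(S/I) = 21`. Hence `t_n ≤ t_i + t_(n-i)` is not true in general. -/
theorem result :
    (∃ I : Ideal (MvPolynomial (Fin 6) (ZMod 2)), HomogIdeal I ∧ topDegree I 3 ≤ 10 ∧
      topDegree I 6 = 21) ∧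
    ¬ ∀ (K : Type) [Field K] (n : ℕ), 1 ≤ n → ∀ I : Ideal (MvPolynomial (Fin n) K),
      HomogIdeal I → ∀ i ≤ n, topDegree I n ≤ topDegree I i + topDegree I (n - i) := by
  refine ⟨⟨J, homogeneous_J, top_three, top_six⟩, fun h => ?_⟩
  have h1 := h (ZMod 2) 6 (by norm_num) J homogeneous_J 3 (by norm_num)
  have h3 : topDegree J 3 + topDegree J (6 - 3) ≤ 10 + 10 := add_le_add top_three top_three
  have h5 := h1.trans h3
  rw [top_six] at h5
  have h6 : (21 : WithBot ℕ∞) ≤ 20 := by
    refine h5.trans (le_of_eq ?_)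
    norm_num
  have h7 : (21 : ℕ) ≤ 20 := by exact_mod_cast h6
  omega

end Pool.Agent.Results.MP_78a38c_al.Disproof
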